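import Pool.Agent.P.MP_6990a0_al.JG

open Pool.Agent Pool.Agent.Edif

universe u v

namespace Pool.Agent.Results.MP_6990a0_al.BoundedIndex

/-- Strong centre theorem up to a quotient of bounded order, in the vector edifice `V_G(K)` of a
connected reductive subgroup `G = Spec A` of `GL_n` over a field `k`; the bound depends on `n`
only. -/
theorem result (n : ℕ) : ∃ J : ℕ, ∀ (k : Type u) [Field k] (A : Type u) [CommRing A]
    [HopfAlgebra k A], RG.IsReductive k A → ∀ u : GL (Fin n) A, IsEmb k u →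
    ∀ (K : Subfield ℝ) (C : Set (Ed k A K)),
    (∀ x ∈ C, ∀ y ∈ C, ∃ T v w, x = apt T v ∧ y = apt T w ∧ apt T '' segment K v w ⊆ C) →
    (∀ T v (c : K), 0 < c → apt T v ∈ C → apt T (c • v) ∈ C) →
    (∃ x ∈ C, ∀ y ∈ C, ¬ Opp x y) →
    ∀ (Γ : Type v) [Group Γ] [MulAction Γ (Ed k A K)],
    (∀ γ : Γ, AptLin (γ • · : Ed k A K → _)) → (∀ γ : Γ, (γ • ·) '' C = C) →
    ∃ (N : Subgroup Γ) (_ : N.Normal), N.FiniteIndex ∧ N.index ≤ J ∧ ∀ H : Subgroup Γ,
      Group.IsSolvable (H.map (QuotientGroup.mk' N)) →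
      ∃ x ∈ C, (∀ T, x ≠ apt T 0) ∧ (∀ y ∈ C, ¬ Opp x y) ∧
        ∀ γ ∈ H, (γ • ·) '' facet x = facet x :=
  topJ n

/-- Every reductive group embeds, so the form without the bound follows. -/
theorem finite_index (k : Type u) [Field k] (A : Type u) [CommRing A] [HopfAlgebra k A]
    (hA : RG.IsReductive k A) (K : Subfield ℝ) (C : Set (Ed k A K))
    (conv : ∀ x ∈ C, ∀ y ∈ C, ∃ T v w, x = apt T v ∧ y = apt T w ∧ apt T '' segment K v w ⊆ C)
    (cone : ∀ T v (c : K), 0 < c → apt T v ∈ C → apt T (c • v) ∈ C)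
    (noncr : ∃ x ∈ C, ∀ y ∈ C, ¬ Opp x y)
    (Γ : Type v) [Group Γ] [MulAction Γ (Ed k A K)] (aut : ∀ γ : Γ, AptLin (γ • · : Ed k A K → _))
    (stab : ∀ γ : Γ, (γ • ·) '' C = C) :
    ∃ (N : Subgroup Γ) (_ : N.Normal), N.FiniteIndex ∧ ∀ H : Subgroup Γ,
      Group.IsSolvable (H.map (QuotientGroup.mk' N)) →
      ∃ x ∈ C, (∀ T, x ≠ apt T 0) ∧ (∀ y ∈ C, ¬ Opp x y) ∧
        ∀ γ ∈ H, (γ • ·) '' facet x = facet x :=
  let ⟨n, u, hu⟩ := RED.exists_emb hA
  let ⟨_, h⟩ := result n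
  let ⟨N, h1, h2, _, h3⟩ := h k A hA u hu K C conv cone noncr Γ aut stab
  ⟨N, h1, h2, h3⟩

/-! Checks of the definitions, for every reductive group. -/

section checks

variable {k : Type u} [Field k] {A : Type u} [CommRing A] [HopfAlgebra k A]
  (hA : RG.IsReductive k A) {K : Subfield ℝ}

include hA

/-- Apartments exist, and every split torus lies in a maximal one. -/
theorem apartments_exist : (∃ T : Torus k A, T.IsMax) ∧
    ∀ T : Torus k A, ∃ T' : MaxT k A, RingHom.ker T'.1.t ≤ RingHom.ker T.t :=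
  ⟨(jn_nonempty hA).elim fun T => ⟨T.1, T.2⟩, jn_max hA⟩

/-- The charts are injective. -/
theorem chart_injective (T : MaxT k A) (v w : Fin T.1.r → K) : apt T v = apt T w ↔ v = w :=
  (jn_inj hA T).eq_iff

/-- The quotient identifies exactly the related pairs. -/
theorem chart_eq_iff (T T' : MaxT k A) (v : Fin T.1.r → K) (v' : Fin T'.1.r → K) :
    apt T v = apt T' v' ↔ T.1.Rel v T'.1 v' :=
  jn_rel hA T T' v v'

/-- Any two points lie in a common apartment. -/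
theorem common_apartment (x y : Ed k A K) : ∃ T v w, x = apt T v ∧ y = apt T w :=
  jn_common hA x y

/-- Segments do not depend on the common apartment. -/
theorem segment_independent {T T' : MaxT k A} {v w : Fin T.1.r → K} {v' w' : Fin T'.1.r → K}
    (hv : apt T v = apt T' v') (hw : apt T w = apt T' w') :
    apt T '' segment K v w = apt T' '' segment K v' w' :=
  jn_seg hA hv hw

/-- In an apartment, opposite means negative. -/
theorem opposite_iff (T : MaxT k A) (v w : Fin T.1.r → K) :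
    Opp (apt T v) (apt T w) ↔ w = -v :=
  jn_opp hA T v w

/-- In an apartment, the facets are the sign classes of the roots. -/
theorem facet_iff (T : MaxT k A) (v w : Fin T.1.r → K) :
    apt T w ∈ facet (apt T v) ↔ ∀ a, T.1.IsRoot a →
      SignType.sign (∑ i, (a i : ℝ) * (w i : ℝ)) = SignType.sign (∑ i, (a i : ℝ) * (v i : ℝ)) :=
  jn_facet hA T v w

/-- `G(k)` acts by conjugation of tori; the stabiliser of `x` and of its facet is `P_x(k)`. -/
theorem rational_points_act : ∃ _ : MulAction (Pt k A k) (Ed k A K),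
    (∀ g : Pt k A k, AptLin (g • · : Ed k A K → _)) ∧
    (∀ (g : Pt k A k) (x : Ed k A K), g • x = x ↔ InPar x g) ∧
    (∀ (g : Pt k A k) (x : Ed k A K), (g • ·) '' facet x = facet x ↔ InPar x g) ∧
    ∀ (g : Pt k A k) (T T' : MaxT k A) θ (v : Fin T.1.r → K) (v' : Fin T'.1.r → K),
      T.1.Conj g T'.1 θ → (∀ m, ∑ i, (m i : K) * v' i = ∑ i, (θ m i : K) * v i) →
      g • apt T v = apt T' v' :=
  jn_act hA K

/-- The three hypotheses on `C` hold for every convex cone of an apartment that is not symmetric. -/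
theorem hypotheses_hold (T₀ : MaxT k A) (D : Set (Fin T₀.1.r → K))
    (h1 : ∀ v ∈ D, ∀ w ∈ D, segment K v w ⊆ D)
    (h2 : ∀ v ∈ D, ∀ c : K, 0 < c → c • v ∈ D) (h3 : ∃ v ∈ D, -v ∉ D) :
    (∀ x ∈ apt T₀ '' D, ∀ y ∈ apt T₀ '' D, ∃ T v w, x = apt T v ∧ y = apt T w ∧
      apt T '' segment K v w ⊆ apt T₀ '' D) ∧
    (∀ T v (c : K), 0 < c → apt T v ∈ apt T₀ '' D → apt T (c • v) ∈ apt T₀ '' D) ∧
    ∃ x ∈ apt T₀ '' D, ∀ y ∈ apt T₀ '' D, ¬ Opp x y :=
  jn_cone hA T₀ D (convex_iff_segment_subset.2 fun v hv w hw => h1 v hv w hw) h2 h3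

/-- For `G = GL_n`: a maximal torus of rank `n`, the roots `e_i - e_j`, and the block triangular
matrices as parabolic subgroups. -/
theorem general_linear {n : ℕ} {U : Matrix.GeneralLinearGroup (Fin n) A} (hu : IsEmb k U)
    (hs : ∀ (S : Type u) [CommRing S] [Algebra k S] (g : Matrix.GeneralLinearGroup (Fin n) S),
      ∃ x : Pt k A S, ∀ i j, x.ofConv (U.1 i j) = g.1 i j) :
    ∃ (T : MaxT k A) (e : Fin n ≃ Fin T.1.r),
      (∀ a, T.1.IsRoot a ↔ ∃ i j, i ≠ j ∧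
        ∀ l, a l = (if l = i then 1 else 0) - if l = j then 1 else 0) ∧
      ∀ (v : Fin T.1.r → K) (S : Type u) [CommRing S] [Algebra k S] (g : Pt k A S),
        InPar (apt T v) g ↔ ∀ i j, v (e i) < v (e j) → g.ofConv (U.1 i j) = 0 :=
  jg_gl' hA hu hs K

end checks

/-- The group `GL_n` exists and is reductive. -/
theorem general_linear_exists (k : Type u) [Field k] (n : ℕ) : ∃ (A : Type u) (_ : CommRing A)
    (_ : HopfAlgebra k A) (U : Matrix.GeneralLinearGroup (Fin n) A),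
    RG.IsReductive k A ∧ IsEmb k U ∧
    ∀ (S : Type u) [CommRing S] [Algebra k S] (g : Matrix.GeneralLinearGroup (Fin n) S),
      ∃ x : Pt k A S, ∀ i j, x.ofConv (U.1 i j) = g.1 i j :=
  jg_exists k n

/-- For subgroups of `G(k)` the centre is a fixed point. -/
theorem rational_form (n : ℕ) : ∃ J : ℕ, ∀ (k : Type u) [Field k] (A : Type u) [CommRing A]
    [HopfAlgebra k A], RG.IsReductive k A → ∀ u : GL (Fin n) A, IsEmb k u →
    ∀ (K : Subfield ℝ) [MulAction (Pt k A k) (Ed k A K)],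
    (∀ (g : Pt k A k) (T T' : MaxT k A) θ (v : Fin T.1.r → K) (v' : Fin T'.1.r → K),
      T.1.Conj g T'.1 θ → (∀ m, ∑ i, (m i : K) * v' i = ∑ i, (θ m i : K) * v i) →
      g • apt T v = apt T' v') → ∀ C : Set (Ed k A K),
    (∀ x ∈ C, ∀ y ∈ C, ∃ T v w, x = apt T v ∧ y = apt T w ∧ apt T '' segment K v w ⊆ C) →
    (∀ T v (c : K), 0 < c → apt T v ∈ C → apt T (c • v) ∈ C) →
    (∃ x ∈ C, ∀ y ∈ C, ¬ Opp x y) →
    ∀ Γ : Subgroup (Pt k A k), (∀ γ ∈ Γ, (γ • ·) '' C = C) →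
    ∃ (N : Subgroup Γ) (_ : N.Normal), N.FiniteIndex ∧ N.index ≤ J ∧ ∀ H : Subgroup Γ,
      Group.IsSolvable (H.map (QuotientGroup.mk' N)) →
      ∃ x ∈ C, (∀ T, x ≠ apt T 0) ∧ (∀ y ∈ C, ¬ Opp x y) ∧
        ∀ γ ∈ H, γ.1 • x = x ∧ InPar x γ.1 :=
  jg_rat n

end Pool.Agent.Results.MP_6990a0_al.BoundedIndex
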