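import Pool.Agent.P.MP_6990a0_al.Main

open Pool.Agent.P.MP_6990a0_al

theorem Pool.Agent.Results.MP_6990a0_al.RankOneFactors.result
    {K : Type*} [Field K] [LinearOrder K] [IsStrictOrderedRing K] [Archimedean K]
    {Ω ι Z : Type*} [Finite ι] [AddCommGroup Z] [Module K Z] [FiniteDimensional K Z] (π : Ω → ι)
    (thick : ∀ i, ∃ a b c, π a = i ∧ π b = i ∧ π c = i ∧ a ≠ b ∧ a ≠ c ∧ b ≠ c)
    (C : Set (EdPt K π Z))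
    (convex : ∀ φ, IsApt π φ → Convex K (φ ⁻¹' C))
    (cone : ∀ φ, IsApt π φ → ∀ v, ∀ t : K, 0 < t → φ v ∈ C → φ (t • v) ∈ C)
    (noncr : ∃ x ∈ C, ∀ y ∈ C, ¬AreOpp π x y)
    (Γ : Subgroup (Equiv.Perm (EdPt K π Z)))
    (aut : ∀ κ ∈ Γ, AptLinear π κ ∧ AptLinear π κ.symm) (stab : ∀ κ ∈ Γ, κ '' C = C) :
    ∃ x ∈ C, x.1 ≠ 0 ∧ (∀ κ ∈ Γ, κ '' facetOf π x = facetOf π x) ∧
      ∀ y ∈ C, ¬AreOpp π x y :=
  main thick C convex cone noncr Γ aut stab
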